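import Pool.Agent.P.MP_9167e9_an.Fin.Part
import Pool.Agent.P.MP_9167e9_an.Det.Main

/-!
The final assembly once more, keeping track of the exponent and of the finite generating set.
-/

noncomputable section
open scoped ENNReal Classical
open Filter Topology

namespace Pool.Agent.P.MP_9167e9_an

namespace Fg

theorem det (Gen : Type) [Fintype Gen] (p : ℝ≥0∞) [Fact (1 ≤ p)]
    (x : MonoidAlgebra ℂ (FreeGroup Gen)) (h2 : 2 ≤ p) (hp : p ≠ ∞) (hcon : Con Gen p x) :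
    ∃ (G : Type) (_ : Group G), Group.FG G ∧ ¬ Function.Surjective (K0.map (iota G p)) := by
  obtain ⟨Y, hY1, hY2, hY⟩ := Gau.zero Gen
  obtain ⟨G, _, ρ, R, hρ, hst⟩ := hcon Y hY1 hY2
  have S := fun n => (hst n).2.some
  have := fun n => (S n).finA
  choose J U V hJ nJ hU hV using fun n => Avg.exists_ops (S n) hp
  choose J' U' V' hJ' _ hU' hV' using fun n => Avg.exists_ops (S n) Gau.two_ne
  choose p0 p1 e0 e1 hK using fun n => Avg.exists_hom (S n) hρ hp (hJ n) (hU n) (hV n)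
  choose q0 q1 f0 f1 hK' using fun n => Avg.exists_hom (S n) hρ Gau.two_ne (hJ' n) (hU' n) (hV' n)
  obtain ⟨T, hT⟩ := Avg.exists_conv hp (x.coeff.mapDomain ρ)
  obtain ⟨e, he, ne⟩ := Avg.exists_e (S 0) hp hT
  refine ⟨G, _, Group.fg_of_surjective hρ, Avg.det_abs (iota G p) (fun n => Op (G ⧸ (S n).A) p)
    (fun n => opNT _ p hp) p0 p1 hK e he (fun n => ?_) fun a => ?_⟩
  · rw [e0, e1]
    exact Avg.e_stage (S n) hρ hp (hJ n) (nJ n) (hU n) (hV n) hT e he ne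
  · filter_upwards [hY p x G ρ R hρ (fun n => (hst n).1) S J' U' V' hJ' hU' hV' _
      (a.map (lam2 h2)).e (a.map (lam2 h2)).idem] with n hn
    rw [Avg.transfer (S n) h2 hp (fun u v h i => by rw [hJ, hJ', h])
      (fun u v h i => by rw [hU, hU', h]) (fun u v h i => by rw [hV, hV', h]) (e0 n) (e1 n) (hK n)
      (f0 n) (f1 n) (hK' n) a, funext (f0 n), funext (f1 n)]
    exact hn

theorem card_le (j : ℕ) (hj : 4 ≤ j) (x y z b : ℕ) (hx : x + y + z + 1 ≤ b) :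
    (j * ((2 * j) ^ x * (2 * (2 * j) ^ y) * (2 * j) ^ z)) ^ 2 ≤
      j ^ (2 * (x + y + z + 1) + b) := by
  have h2 : j * ((2 * j) ^ x * (2 * (2 * j) ^ y) * (2 * j) ^ z) = (2 * j) ^ (x + y + z + 1) := by
    ring
  rw [h2]
  generalize x + y + z + 1 = n at hx ⊢
  have h3 : 4 ^ n ≤ j ^ b :=
    (Nat.pow_le_pow_left hj n).trans (Nat.pow_le_pow_right (by omega) hx)
  calc ((2 * j) ^ n) ^ 2 = j ^ (2 * n) * 4 ^ n := by
        rw [← pow_mul, mul_comm n 2, pow_mul, pow_mul, ← mul_pow]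
        congr 1
        ring
    _ ≤ j ^ (2 * n) * j ^ b := Nat.mul_le_mul_left _ h3
    _ = j ^ (2 * n + b) := by rw [pow_add]

theorem fin (hStage : StStage) (hNew : StNew) (hLink : StLink) (hGrp : StGrp)
    (p : ℝ≥0∞) [Fact (1 ≤ p)] (q : ℕ) (hq : q = 1000000) (hqp : (q : ℝ≥0∞) ≤ p) (hne : p ≠ ∞) :
    ∃ (G : Type) (_ : Group G), Group.FG G ∧ ¬ Function.Surjective (K0.map (iota G p)) := by
  have hq2 : 2 ≤ q := by omega
  have h2 : (2 : ℝ≥0∞) ≤ p := le_trans (by exact_mod_cast hq2) hqp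
  have hqr : (q : ℝ) ≤ p.toReal := by
    have := ENNReal.toReal_mono hne hqp
    rwa [ENNReal.toReal_natCast] at this
  obtain ⟨T, B, j0, hS⟩ := hStage p h2 hne
  obtain ⟨j, hj0, hj⟩ : ∃ j, j0 ≤ j ∧ 1000 ≤ j := ⟨max j0 1000, le_max_left _ _, le_max_right _ _⟩
  obtain ⟨D, hD⟩ : ∃ D, D = (2 * j) ^ 36 := ⟨_, rfl⟩
  have : NeZero D := ⟨by rw [hD]; positivity⟩
  obtain ⟨k, hk⟩ : ∃ k, k = j * ((2 * j) ^ 250000 * (2 * (2 * j) ^ 50000) * D) := ⟨_, rfl⟩
  obtain ⟨h, hh1, hh⟩ := Nat.exists_infinite_primes (max 1024 ⌈(k : ℝ) ^ p.toReal⌉₊)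
  obtain ⟨P, hP⟩ : ∃ P : Prm, P = cprm j h ((2 * j) ^ 250000) ((2 * j) ^ 50000) D := ⟨_, rfl⟩
  have hc : Fintype.card P.S = k := by
    subst hP
    rw [hk]
    simp only [Fintype.card_prod, Fintype.card_fin, ZMod.card]
  have hPj : P.j = j := by rw [hP]
  have hPh : P.h = h := by rw [hP]
  refine det (P.S ⊕ P.S) p (xF P.S P.h P.j T) h2 hne
    (Final.con p j h D T B hNew hLink hGrp hj hh (le_trans (le_max_left _ _) hh1) hD.ge P hP
      (hS P (by omega) ?_ ?_))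
  · rw [hc, hPj]
    have h1 : k ^ 2 ≤ j ^ q := by
      obtain ⟨b, hb, hb'⟩ : ∃ b, 250000 + 50000 + 36 + 1 ≤ b ∧
          2 * (250000 + 50000 + 36 + 1) + b = q := ⟨399926, by omega, by omega⟩
      rw [hk, hD, ← hb']
      exact card_le j (by omega) 250000 50000 36 b hb
    have h1' : (k : ℝ) ^ 2 ≤ (j : ℝ) ^ (q : ℝ) := by
      rw [Real.rpow_natCast]
      exact_mod_cast h1
    refine h1'.trans (Real.rpow_le_rpow_of_exponent_le ?_ hqr)
    exact_mod_cast (by omega : 1 ≤ j)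
  · rw [hc, hPh]
    exact Nat.ceil_le.1 (le_trans (le_max_right _ _) hh1)

theorem part (p : ℝ≥0∞) [Fact (1 ≤ p)] (hp : 1000000 ≤ p) (hne : p ≠ ∞) :
    ∃ (G : Type) (_ : Group G), Group.FG G ∧ ¬ Function.Surjective (K0.map (iota G p)) := by
  have bas := pBas pTree pPre pHt
  have tw := pTW pTree pPre pWS bas
  have g1 := pGam1 tw bas pNum pBall
  have g2 := pGam2 tw bas pNum g1
  have de := pDe tw bas pNum g1
  have pw := pPW pGP pPre pWS pNum g1
  have nf := pNF pw g1 pNum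
  have br := pBr g1 g2 pNum
  have ng := pNearG pTree pPre bas g1 nf pBall
  have ln := pLocn pw br g1 g2 pNum ng
  have an := pAnch pw br g1 g2 pNum bas
  have lg := pLocG g1 bas pNum
  have lz := pLocZ lg pw br g1 bas pNum nf
  have lk := pLink pProb pAddr lg lz g1 bas ng pBall
  have bl := pBlk (Spec.spec_of_blk Spec.pBlk) de pw nf g1 bas pNum
  have st := pStage bl (pTwist pFar pNear an ng ln bas) ln nf g1 bas
  exact fin st (pNew pCore pLabSelf pLabCross pCode pCell) lk (pGrp pw g1 nf) p 1000000 rfl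
    (by exact_mod_cast hp) hne

end Fg

end Pool.Agent.P.MP_9167e9_an
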